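import Pool.Agent.Y450.FS.Geo

/-!
# No uniformly Lipschitz retractions between finite subset spaces

`no_retr` : if `p` is a prime, `H` a complex inner product space with an infinite orthonormal
sequence, then there is no `C`-Lipschitz retraction from the space of nonempty subsets of at most
`p` points of `H` onto the space of nonempty subsets of at most `p - 1` points, as soon as
`C * (2 * π / p) ≤ 1 / 2`.
-/

set_option autoImplicit false

namespace Pool.Agent.Y450.FS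

open Complex Metric

noncomputable section

variable {H : Type*} [NormedAddCommGroup H] [InnerProductSpace ℂ H]

/-- `r` is a `C`-Lipschitz retraction from the nonempty sets of at most `n` points onto those of
at most `n - 1` points. -/
structure IsRetr (n : ℕ) (C : ℝ) (r : Finset H → Finset H) : Prop where
  card : ∀ s : Finset H, s.Nonempty → s.card ≤ n → (r s).Nonempty ∧ (r s).card ≤ n - 1
  fix : ∀ s : Finset H, s.Nonempty → s.card ≤ n - 1 → r s = s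
  lip : ∀ s t : Finset H, s.Nonempty → s.card ≤ n → t.Nonempty → t.card ≤ n →
    hausdorffDist ((r s : Finset H) : Set H) ((r t : Finset H) : Set H)
      ≤ C * hausdorffDist ((s : Finset H) : Set H) ((t : Finset H) : Set H)

open scoped Classical in
/-- The regular polygon with vertices `χ k • u`. -/
def gon (p : ℕ) [NeZero p] (u : H) : Finset H :=
  Finset.univ.image (fun k : ZMod p => ch k • u)

open scoped Classical in
/-- The regular polygon without the vertex `u`. -/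
def gon' (p : ℕ) [NeZero p] (u : H) : Finset H :=
  (Finset.univ.erase (0 : ZMod p)).image (fun k : ZMod p => ch k • u)

section gons

variable {p : ℕ} [NeZero p]

lemma mem_gon {u x : H} : x ∈ gon p u ↔ ∃ k : ZMod p, ch k • u = x := by
  simp [gon]

lemma mem_gon' {u x : H} : x ∈ gon' p u ↔ ∃ k : ZMod p, k ≠ 0 ∧ ch k • u = x := by
  simp [gon']

lemma gon_card (u : H) : (gon p u).card ≤ p := by
  classical
  refine Finset.card_image_le.trans ?_
  rw [Finset.card_univ, ZMod.card]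

lemma gon'_card (u : H) : (gon' p u).card ≤ p - 1 := by
  classical
  refine Finset.card_image_le.trans ?_
  rw [Finset.card_erase_of_mem (Finset.mem_univ _), Finset.card_univ, ZMod.card]

lemma gon_nonempty (u : H) : (gon p u).Nonempty := ⟨ch (0 : ZMod p) • u, mem_gon.2 ⟨0, rfl⟩⟩

lemma one_ne (hp : 2 ≤ p) : (1 : ZMod p) ≠ 0 := by
  have : Fact (1 < p) := ⟨by omega⟩
  exact one_ne_zero

lemma gon'_nonempty (hp : 2 ≤ p) (u : H) : (gon' p u).Nonempty :=
  ⟨ch (1 : ZMod p) • u, mem_gon'.2 ⟨1, one_ne hp, rfl⟩⟩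

lemma gon_smul (k : ZMod p) (u : H) : gon p (ch k • u) = gon p u := by
  ext x
  rw [mem_gon, mem_gon]
  constructor
  · rintro ⟨m, rfl⟩
    exact ⟨m + k, by rw [ch_add, mul_smul]⟩
  · rintro ⟨m, rfl⟩
    exact ⟨m - k, by rw [← mul_smul, ← ch_add, sub_add_cancel]⟩

lemma hd_gon_gon' (hp : 2 ≤ p) {u : H} (hu : ‖u‖ = 1) :
    hausdorffDist (gon p u : Set H) (gon' p u : Set H) ≤ ‖ch (1 : ZMod p) - 1‖ := by
  apply hausdorffDist_le_of_mem_dist (norm_nonneg _)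
  · intro x hx
    obtain ⟨k, rfl⟩ := mem_gon.1 (Finset.mem_coe.1 hx)
    by_cases hk : k = 0
    · refine ⟨ch (1 : ZMod p) • u, Finset.mem_coe.2 (mem_gon'.2 ⟨1, one_ne hp, rfl⟩), ?_⟩
      rw [hk, ch_zero, dist_eq_norm, ← sub_smul, norm_smul, hu, mul_one, norm_sub_rev]
    · exact ⟨ch k • u, Finset.mem_coe.2 (mem_gon'.2 ⟨k, hk, rfl⟩), by rw [dist_self]; positivity⟩
  · intro x hx
    obtain ⟨k, _, rfl⟩ := mem_gon'.1 (Finset.mem_coe.1 hx)
    exact ⟨ch k • u, Finset.mem_coe.2 (mem_gon.2 ⟨k, rfl⟩), by rw [dist_self]; positivity⟩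

lemma hd_gon (u v : H) :
    hausdorffDist (gon p u : Set H) (gon p v : Set H) ≤ ‖u - v‖ := by
  apply hausdorffDist_le_of_mem_dist (norm_nonneg _)
  · intro x hx
    obtain ⟨k, rfl⟩ := mem_gon.1 (Finset.mem_coe.1 hx)
    refine ⟨ch k • v, Finset.mem_coe.2 (mem_gon.2 ⟨k, rfl⟩), ?_⟩
    rw [dist_eq_norm, ← smul_sub, norm_smul, norm_ch, one_mul]
  · intro x hx
    obtain ⟨k, rfl⟩ := mem_gon.1 (Finset.mem_coe.1 hx)
    refine ⟨ch k • u, Finset.mem_coe.2 (mem_gon.2 ⟨k, rfl⟩), ?_⟩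
    rw [dist_eq_norm, ← smul_sub, norm_smul, norm_ch, one_mul, norm_sub_rev]

end gons

section retr

variable {p : ℕ} [NeZero p] {C : ℝ} {r : Finset H → Finset H}

lemma IsRetr.near (hr : IsRetr p C r) (hp : 2 ≤ p) (hC : 0 ≤ C) {u : H} (hu : ‖u‖ = 1) {b : H}
    (hb : b ∈ r (gon p u)) :
    ∃ k : ZMod p, ‖b - ch k • u‖ ≤ C * ‖ch (1 : ZMod p) - 1‖ := by
  have h1 := hr.card (gon p u) (gon_nonempty u) (gon_card u)
  have h2 := hr.fix (gon' p u) (gon'_nonempty hp u) (gon'_card u)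
  have h3 := hr.lip (gon p u) (gon' p u) (gon_nonempty u) (gon_card u) (gon'_nonempty hp u)
    ((gon'_card u).trans (Nat.sub_le _ _))
  rw [h2] at h3
  obtain ⟨y, hy, hby⟩ := exists_dist_le h1.1 (gon'_nonempty hp u) hb
  obtain ⟨k, _, rfl⟩ := mem_gon'.1 hy
  refine ⟨k, ?_⟩
  rw [← dist_eq_norm]
  exact hby.trans (h3.trans (mul_le_mul_of_nonneg_left (hd_gon_gon' hp hu) hC))

open scoped Classical in
/-- The coordinates `⟪u, b⟫` of the points `b` of the image of the polygon. -/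
def img (p : ℕ) [NeZero p] (r : Finset H → Finset H) (u : H) : Finset ℂ :=
  (r (gon p u)).image (fun b => inner ℂ u b)

lemma mem_img {u : H} {z : ℂ} : z ∈ img p r u ↔ ∃ b ∈ r (gon p u), inner ℂ u b = z := by
  simp [img]

lemma img_smul (k : ZMod p) (u : H) {z : ℂ} :
    z ∈ img p r (ch k • u) ↔ ∃ w ∈ img p r u, ch (-k) * w = z := by
  rw [mem_img, gon_smul]
  constructor
  · rintro ⟨b, hb, rfl⟩
    refine ⟨inner ℂ u b, mem_img.2 ⟨b, hb, rfl⟩, ?_⟩
    rw [inner_smul_left, conj_ch]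
  · rintro ⟨w, hw, rfl⟩
    obtain ⟨b, hb, rfl⟩ := mem_img.1 hw
    exact ⟨b, hb, by rw [inner_smul_left, conj_ch]⟩

lemma IsRetr.img_card (hr : IsRetr p C r) (u : H) : (img p r u).card ≤ p - 1 :=
  Finset.card_image_le.trans (hr.card _ (gon_nonempty u) (gon_card u)).2

lemma IsRetr.img_nonempty (hr : IsRetr p C r) (u : H) : (img p r u).Nonempty :=
  (hr.card _ (gon_nonempty u) (gon_card u)).1.image _

lemma IsRetr.img_near (hr : IsRetr p C r) (hp : 2 ≤ p) (hC : 0 ≤ C) {u : H} (hu : ‖u‖ = 1)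
    {z : ℂ} (hz : z ∈ img p r u) :
    ∃ k : ZMod p, ‖z - ch k‖ ≤ C * ‖ch (1 : ZMod p) - 1‖ := by
  obtain ⟨b, hb, rfl⟩ := mem_img.1 hz
  obtain ⟨k, hk⟩ := hr.near hp hC hu hb
  refine ⟨k, ?_⟩
  have h1 : inner ℂ u b - ch k = inner ℂ u (b - ch k • u) := by
    rw [inner_sub_right, inner_smul_right, inner_self_eq_norm_sq_to_K, hu]
    simp
  rw [h1]
  calc ‖inner ℂ u (b - ch k • u)‖ ≤ ‖u‖ * ‖b - ch k • u‖ := norm_inner_le_norm _ _
    _ ≤ C * ‖ch (1 : ZMod p) - 1‖ := by rw [hu, one_mul]; exact hk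

lemma IsRetr.img_norm (hr : IsRetr p C r) (hp : 2 ≤ p) (hC : 0 ≤ C)
    (hκ : C * ‖ch (1 : ZMod p) - 1‖ ≤ 1 / 2) {u : H} (hu : ‖u‖ = 1)
    {z : ℂ} (hz : z ∈ img p r u) : 1 / 2 ≤ ‖z‖ ∧ ‖z‖ ≤ 2 := by
  obtain ⟨k, hk⟩ := hr.img_near hp hC hu hz
  have h1 := norm_ch k
  have h2 : ‖ch k‖ ≤ ‖z‖ + ‖z - ch k‖ := by
    have : ch k = z - (z - ch k) := by ring
    calc ‖ch k‖ = ‖z - (z - ch k)‖ := by rw [← this]
      _ ≤ _ := norm_sub_le _ _
  have h3 : ‖z‖ ≤ ‖ch k‖ + ‖z - ch k‖ := by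
    have : z = ch k + (z - ch k) := by ring
    calc ‖z‖ = ‖ch k + (z - ch k)‖ := by rw [← this]
      _ ≤ _ := norm_add_le _ _
  constructor <;> linarith

lemma IsRetr.img_lip (hr : IsRetr p C r) (hp : 2 ≤ p) (hC : 0 ≤ C)
    (hκ : C * ‖ch (1 : ZMod p) - 1‖ ≤ 1 / 2) {u v : H} (hu : ‖u‖ = 1) (hv : ‖v‖ = 1)
    {z : ℂ} (hz : z ∈ img p r u) : ∃ z' ∈ img p r v, ‖z - z'‖ ≤ (C + 2) * ‖u - v‖ := by
  obtain ⟨b, hb, rfl⟩ := mem_img.1 hz
  obtain ⟨k, hk⟩ := hr.near hp hC hu hb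
  have hbn : ‖b‖ ≤ 2 := by
    have h3 : ‖b‖ ≤ ‖ch k • u‖ + ‖b - ch k • u‖ := by
      have : b = ch k • u + (b - ch k • u) := by abel
      calc ‖b‖ = ‖ch k • u + (b - ch k • u)‖ := by rw [← this]
        _ ≤ _ := norm_add_le _ _
    rw [norm_smul, norm_ch, hu] at h3
    linarith
  have h1 := hr.card (gon p u) (gon_nonempty u) (gon_card u)
  have h2 := hr.card (gon p v) (gon_nonempty v) (gon_card v)
  have h3 := hr.lip (gon p u) (gon p v) (gon_nonempty u) (gon_card u) (gon_nonempty v)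
    (gon_card v)
  obtain ⟨b', hb', hbb⟩ := exists_dist_le h1.1 h2.1 hb
  have h4 : ‖b - b'‖ ≤ C * ‖u - v‖ := by
    rw [← dist_eq_norm]
    exact hbb.trans (h3.trans (mul_le_mul_of_nonneg_left (hd_gon u v) hC))
  refine ⟨inner ℂ v b', mem_img.2 ⟨b', hb', rfl⟩, ?_⟩
  have h5 : (inner ℂ u b : ℂ) - inner ℂ v b' = inner ℂ (u - v) b + inner ℂ v (b - b') := by
    rw [inner_sub_left, inner_sub_right]; ring
  rw [h5]
  calc ‖(inner ℂ (u - v) b : ℂ) + inner ℂ v (b - b')‖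
      ≤ ‖(inner ℂ (u - v) b : ℂ)‖ + ‖(inner ℂ v (b - b') : ℂ)‖ := norm_add_le _ _
    _ ≤ ‖u - v‖ * ‖b‖ + ‖v‖ * ‖b - b'‖ :=
      add_le_add (norm_inner_le_norm _ _) (norm_inner_le_norm _ _)
    _ ≤ ‖u - v‖ * 2 + 1 * (C * ‖u - v‖) := by rw [hv]; gcongr
    _ = (C + 2) * ‖u - v‖ := by ring

/-! ### Labels -/

open scoped Classical in
/-- The code of the set of cells met by the image set. -/
def code (p : ℕ) [NeZero p] (r : Finset H → Finset H) (δ : ℝ) (u : H) : ℕ :=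
  Encodable.encode ((img p r u).image (cell δ))

lemma code_near {δ : ℝ} (hδ : 0 < δ) {u v : H} (h : code p r δ u = code p r δ v) {z : ℂ}
    (hz : z ∈ img p r u) : ∃ z' ∈ img p r v, ‖z - z'‖ ≤ 2 * δ := by
  classical
  have h1 := Encodable.encode_injective h
  have h2 : cell δ z ∈ (img p r v).image (cell δ) := by
    rw [← h1]; exact Finset.mem_image_of_mem _ hz
  obtain ⟨z', hz', hzz⟩ := Finset.mem_image.1 h2
  exact ⟨z', hz', cell_dist hδ hzz.symm⟩

/-- All codes of unit vectors lie in a fixed finite set. -/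
lemma IsRetr.code_mem (hr : IsRetr p C r) (hp : 2 ≤ p) (hC : 0 ≤ C)
    (hκ : C * ‖ch (1 : ZMod p) - 1‖ ≤ 1 / 2) {δ : ℝ} (hδ : 0 < δ) :
    ∃ S : Finset ℕ, ∀ u : H, ‖u‖ = 1 → code p r δ u ∈ S := by
  classical
  refine ⟨(((Finset.Icc (-⌈2 / δ⌉) ⌈2 / δ⌉) ×ˢ (Finset.Icc (-⌈2 / δ⌉) ⌈2 / δ⌉)).powerset).image
    Encodable.encode, ?_⟩
  intro u hu
  apply Finset.mem_image_of_mem
  rw [Finset.mem_powerset]
  intro c hc
  obtain ⟨z, hz, rfl⟩ := Finset.mem_image.1 hc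
  exact cell_mem hδ (hr.img_norm hp hC hκ hu hz).2

/-- The smallest code on the orbit. -/
def lam1 (p : ℕ) [NeZero p] (r : Finset H → Finset H) (δ : ℝ) (u : H) : ℕ :=
  sInf (Set.range fun k : ZMod p => code p r δ (ch (-k) • u))

lemma lam1_mem (δ : ℝ) (u : H) :
    ∃ k : ZMod p, code p r δ (ch (-k) • u) = lam1 p r δ u :=
  Nat.sInf_mem (s := Set.range fun k : ZMod p => code p r δ (ch (-k) • u)) ⟨_, 0, rfl⟩

/-- The place on the orbit at which the smallest code is attained. -/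
def lam2 (p : ℕ) [NeZero p] (r : Finset H → Finset H) (δ : ℝ) (u : H) : ZMod p :=
  (lam1_mem (p := p) (r := r) δ u).choose

lemma lam2_spec (δ : ℝ) (u : H) :
    code p r δ (ch (-(lam2 p r δ u)) • u) = lam1 p r δ u :=
  (lam1_mem (p := p) (r := r) δ u).choose_spec

lemma lam1_smul (δ : ℝ) (m : ZMod p) (u : H) : lam1 p r δ (ch m • u) = lam1 p r δ u := by
  unfold lam1
  congr 1
  ext n
  constructor
  · rintro ⟨k, rfl⟩
    refine ⟨k - m, ?_⟩
    show code p r δ (ch (-(k - m)) • u) = code p r δ (ch (-k) • ch m • u)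
    rw [← mul_smul, ← ch_add]
    congr 3
    ring
  · rintro ⟨k, rfl⟩
    refine ⟨k + m, ?_⟩
    show code p r δ (ch (-(k + m)) • ch m • u) = code p r δ (ch (-k) • u)
    rw [← mul_smul, ← ch_add]
    congr 3
    ring

/-- Two places on the orbits of close points at which the codes agree are equal. -/
lemma IsRetr.place_eq (hr : IsRetr p C r) (hpp : p.Prime) (hC : 0 ≤ C)
    (hκ : C * ‖ch (1 : ZMod p) - 1‖ ≤ 1 / 2) {s : ℝ}
    (hs : ∀ m : ZMod p, m ≠ 0 → s ≤ ‖1 - ch m‖) {δ ε : ℝ} (hδ : 0 < δ) (hε : 0 ≤ ε)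
    (hη : 4 * p * (2 * δ + (C + 2) * ε) < s)
    {u v : H} (hu : ‖u‖ = 1) (hv : ‖v‖ = 1) (huv : ‖u - v‖ ≤ ε) {k l : ZMod p}
    (h : code p r δ (ch (-k) • u) = code p r δ (ch (-l) • v)) : k = l := by
  by_contra hkl
  have hp : 2 ≤ p := hpp.two_le
  refine sep hpp hs (η := 2 * δ + (C + 2) * ε) (by positivity) hη (B := img p r u)
    (hr.img_nonempty u) (hr.img_card u) (fun z hz => (hr.img_norm hp hC hκ hu hz).1)
    (g := k - l) (sub_ne_zero.2 hkl) ?_
  intro z hz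
  have h1 : ch k * z ∈ img p r (ch (-k) • u) := (img_smul _ _).2 ⟨z, hz, by rw [neg_neg]⟩
  obtain ⟨w, hw, hzw⟩ := code_near hδ h h1
  obtain ⟨z', hz', rfl⟩ := (img_smul _ _).1 hw
  rw [neg_neg] at hzw
  obtain ⟨z'', hz'', hzz⟩ := hr.img_lip hp hC hκ hv hu hz'
  refine ⟨z'', hz'', ?_⟩
  have h2 : ‖ch (k - l) * z - z'‖ ≤ 2 * δ := by
    have h3 : ch k * z - ch l * z' = ch l * (ch (k - l) * z - z') := by
      rw [mul_sub, ← mul_assoc, ← ch_add, add_sub_cancel]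
    rw [h3, norm_mul, norm_ch, one_mul] at hzw
    exact hzw
  have h3 : ‖z' - z''‖ ≤ (C + 2) * ε := by
    refine hzz.trans ?_
    rw [norm_sub_rev]
    exact mul_le_mul_of_nonneg_left huv (by linarith)
  calc ‖ch (k - l) * z - z''‖ = ‖(ch (k - l) * z - z') + (z' - z'')‖ := by congr 1; ring
    _ ≤ ‖ch (k - l) * z - z'‖ + ‖z' - z''‖ := norm_add_le _ _
    _ ≤ 2 * δ + (C + 2) * ε := add_le_add h2 h3

/-- **No Lipschitz retraction with a constant small against `p`.** -/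
theorem no_retr {e : ℕ → H} (he : Orthonormal ℂ e) (hpp : p.Prime) (hC : 0 ≤ C)
    (hκ : C * (2 * Real.pi / p) ≤ 1 / 2) (hr : IsRetr p C r) : False := by
  have hp : 2 ≤ p := hpp.two_le
  have hκ' : C * ‖ch (1 : ZMod p) - 1‖ ≤ 1 / 2 :=
    (mul_le_mul_of_nonneg_left ch_one_sub_le hC).trans hκ
  obtain ⟨s, hs0, hs⟩ := exists_sep p
  have hp0 : (0 : ℝ) < p := by exact_mod_cast hpp.pos
  obtain ⟨δ, hδ, hδ'⟩ : ∃ δ : ℝ, 0 < δ ∧ 4 * p * (2 * δ + (C + 2) * δ) < s := by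
    refine ⟨s / (8 * p * (C + 4)), by positivity, ?_⟩
    have : 4 * p * (2 * (s / (8 * p * (C + 4))) + (C + 2) * (s / (8 * p * (C + 4)))) = s / 2 := by
      have : C + 4 ≠ 0 := by positivity
      field_simp
      ring
    rw [this]
    linarith
  obtain ⟨S, hS⟩ := hr.code_mem hp hC hκ' hδ
  have hch : ∀ (k : ZMod p) (u : H), ‖u‖ = 1 → ‖ch k • u‖ = 1 := by
    intro k u hu
    rw [norm_smul, norm_ch, hu, one_mul]
  refine no_labels he p hp (ζ := ch (1 : ZMod p)) (norm_ch _) ?_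
    (fun u => (lam1 p r δ u, lam2 p r δ u)) hδ S ?_ ?_ ?_
  · rw [← ch_nsmul, nsmul_eq_mul, ZMod.natCast_self, zero_mul, ch_zero]
  · intro u hu
    refine Prod.ext (lam1_smul δ 1 u) ?_
    show lam2 p r δ (ch (1 : ZMod p) • u) = lam2 p r δ u + 1
    have h1 := lam2_spec (p := p) (r := r) δ (ch (1 : ZMod p) • u)
    rw [lam1_smul, ← lam2_spec (p := p) (r := r) δ u, ← mul_smul, ← ch_add] at h1
    have h2 : -lam2 p r δ (ch (1 : ZMod p) • u) + 1 = -(lam2 p r δ (ch (1 : ZMod p) • u) - 1) := by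
      ring
    rw [h2] at h1
    have h3 := hr.place_eq hpp hC hκ' hs hδ hδ.le hδ' hu hu (by simpa using hδ.le) h1
    rw [← h3, sub_add_cancel]
  · intro u hu
    show lam1 p r δ u ∈ S
    rw [← lam2_spec (p := p) (r := r) δ u]
    exact hS _ (hch _ _ hu)
  · intro u v hu hv huv h
    have h' : lam1 p r δ u = lam1 p r δ v := h
    show lam2 p r δ u = lam2 p r δ v
    rw [← lam2_spec (p := p) (r := r) δ u, ← lam2_spec (p := p) (r := r) δ v] at h'
    exact hr.place_eq hpp hC hκ' hs hδ hδ.le hδ' hu hv huv.le h'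

end retr

end

end Pool.Agent.Y450.FS
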