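import Mathlib
import Pool.Agent.H317F.Sd

/-!
Evaluation of a cochain on the sorted version of a list of labels, with sign.
Labels are pairs `(j, g)`; the list is sorted by `j`, and lists with a repeated `j` give `0`.
-/

set_option autoImplicit false

namespace Pool.Agent.Y450.FS

open H317F

section

variable {G M M' : Type*} [AddCommGroup M] [AddCommGroup M']

/-- strictly increasing first components -/
def Srtd (l : List (ℕ × G)) : Prop := l.Pairwise fun a b => a.1 < b.1

/-- evaluate `ψ` at the list `s` with `a` inserted (with the sign of the insertion) -/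
def insv (a : ℕ × G) : (List (ℕ × G) → M) → List (ℕ × G) → M
  | ψ, [] => ψ [a]
  | ψ, b :: s => if a.1 < b.1 then ψ (a :: b :: s) else if a.1 = b.1 then 0 else
      - insv a (fun m => ψ (b :: m)) s

lemma insv_nil (a : ℕ × G) (ψ : List (ℕ × G) → M) : insv a ψ [] = ψ [a] := rfl

lemma insv_cons (a b : ℕ × G) (ψ : List (ℕ × G) → M) (s : List (ℕ × G)) :
    insv a ψ (b :: s) = if a.1 < b.1 then ψ (a :: b :: s) else if a.1 = b.1 then 0 else
      - insv a (fun m => ψ (b :: m)) s := rfl

lemma exists_sublist_of_del_ne_zero {E : Type*} {l : List E} {ψ : List E → M} (h : del l ψ ≠ 0) :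
    ∃ m : List E, m.length + 1 = l.length ∧ m.Sublist l ∧ ψ m ≠ 0 := by
  induction l generalizing ψ with
  | nil => exact absurd (del_nil ψ) h
  | cons a l ih =>
    rw [del_cons] at h
    by_cases h1 : ψ l = 0
    · rw [h1, zero_sub, neg_ne_zero] at h
      obtain ⟨m, h2, h3, h4⟩ := ih h
      exact ⟨a :: m, by simp [h2], h3.cons_cons a, h4⟩
    · exact ⟨l, by simp, List.sublist_cons_self a l, h1⟩

lemma del_congr_sub {E : Type*} {l : List E} {ψ φ : List E → M}
    (h : ∀ m : List E, m.length + 1 = l.length → m.Sublist l → ψ m = φ m) : del l ψ = del l φ := by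
  by_contra hcon
  have h1 : del l (fun m => ψ m - φ m) ≠ 0 := by
    rw [del_sub]; exact sub_ne_zero.mpr hcon
  obtain ⟨m, h2, h3, h4⟩ := exists_sublist_of_del_ne_zero h1
  exact h4 (by rw [h m h2 h3, sub_self])

lemma insv_of_lt (a : ℕ × G) (ψ : List (ℕ × G) → M) (s : List (ℕ × G))
    (h : ∀ x ∈ s, a.1 < x.1) : insv a ψ s = ψ (a :: s) := by
  cases s with
  | nil => rfl
  | cons b s => rw [insv_cons, if_pos (h b List.mem_cons_self)]

lemma insv_congr (a : ℕ × G) {ψ φ : List (ℕ × G) → M} (s : List (ℕ × G)) (hs : Srtd s)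
    (h : ∀ m, Srtd m → m ⊆ a :: s → m.length = s.length + 1 → ψ m = φ m) :
    insv a ψ s = insv a φ s := by
  induction s generalizing ψ φ with
  | nil => exact h [a] (List.pairwise_singleton _ _) (fun x hx => hx) rfl
  | cons b s ih =>
    rw [insv_cons, insv_cons]
    have hs' := List.pairwise_cons.mp hs
    split_ifs with h1 h2
    · refine h _ ?_ (fun x hx => hx) rfl
      refine List.pairwise_cons.mpr ⟨?_, hs⟩
      intro x hx
      rcases List.mem_cons.mp hx with rfl | hx
      · exact h1
      · exact h1.trans (hs'.1 x hx)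
    · rfl
    · rw [ih hs'.2]
      intro m hm1 hm2 hm3
      refine h _ ?_ ?_ (by simp [hm3])
      · refine List.pairwise_cons.mpr ⟨?_, hm1⟩
        intro x hx
        rcases List.mem_cons.mp (hm2 hx) with rfl | hx
        · omega
        · exact hs'.1 x hx
      · intro x hx
        rcases List.mem_cons.mp hx with rfl | hx
        · exact List.mem_cons_of_mem _ List.mem_cons_self
        · rcases List.mem_cons.mp (hm2 hx) with rfl | hx
          · exact List.mem_cons_self
          · exact List.mem_cons_of_mem _ (List.mem_cons_of_mem _ hx)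

lemma insv_sub (a : ℕ × G) (ψ φ : List (ℕ × G) → M) (s : List (ℕ × G)) :
    insv a (fun m => ψ m - φ m) s = insv a ψ s - insv a φ s := by
  induction s generalizing ψ φ with
  | nil => rfl
  | cons b s ih =>
    rw [insv_cons, insv_cons, insv_cons]
    split_ifs with h1 h2
    · rfl
    · simp
    · rw [ih]; abel

lemma insv_hom (f : M →+ M') (a : ℕ × G) (ψ : List (ℕ × G) → M) (s : List (ℕ × G)) :
    f (insv a ψ s) = insv a (fun m => f (ψ m)) s := by
  induction s generalizing ψ with
  | nil => rfl
  | cons b s ih =>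
    rw [insv_cons, insv_cons]
    split_ifs with h1 h2
    · rfl
    · simp
    · rw [map_neg, ih]

lemma insv_del (a : ℕ × G) (ψ : List (ℕ × G) → M) (s : List (ℕ × G)) (hs : Srtd s)
    (hc : ∀ x ∈ s, x.1 = a.1 → x = a) :
    insv a (fun m => del m ψ) s = ψ s - del s (insv a ψ) := by
  induction s generalizing ψ with
  | nil => simp [insv_nil]
  | cons b s ih =>
    have hs' := List.pairwise_cons.mp hs
    rw [insv_cons]
    split_ifs with h1 h2
    · rw [del_cons]
      congr 1
      apply del_congr_sub
      intro m _ hm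
      symm
      apply insv_of_lt
      intro x hx
      rcases List.mem_cons.mp (hm.subset hx) with rfl | hx
      · exact h1
      · exact h1.trans (hs'.1 x hx)
    · have hab : b = a := hc b List.mem_cons_self h2.symm
      subst hab
      rw [del_cons, insv_of_lt b ψ s hs'.1]
      have h3 : del s (fun m => insv b ψ (b :: m)) = del s (fun _ => (0 : M)) := by
        apply del_congr_sub
        intro m _ _
        rw [insv_cons, if_neg (lt_irrefl _), if_pos rfl]
      rw [h3, del_zero]
      abel
    · have h3 : (fun m => del (b :: m) ψ) =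
          fun m => ψ m - del m (fun k => ψ (b :: k)) := by
        funext m; rw [del_cons]
      rw [h3, insv_sub, ih _ hs'.2 fun x hx => hc x (List.mem_cons_of_mem _ hx), del_cons]
      have h4 : del s (fun m => insv a ψ (b :: m)) =
          del s (fun m => 0 - insv a (fun k => ψ (b :: k)) m) := by
        apply del_congr_sub
        intro m _ _
        rw [insv_cons, if_neg h1, if_neg h2, zero_sub]
      rw [h4, del_sub, del_zero]
      abel

/-- evaluate `ψ` at the sorted version of the list (with the sign of the sorting permutation) -/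
def srt : List (ℕ × G) → (List (ℕ × G) → M) → M
  | [], ψ => ψ []
  | a :: l, ψ => srt l (insv a ψ)

@[simp] lemma srt_nil (ψ : List (ℕ × G) → M) : srt [] ψ = ψ [] := rfl

@[simp] lemma srt_cons (a : ℕ × G) (l : List (ℕ × G)) (ψ : List (ℕ × G) → M) :
    srt (a :: l) ψ = srt l (insv a ψ) := rfl

lemma srt_congr (l : List (ℕ × G)) {ψ φ : List (ℕ × G) → M}
    (h : ∀ m, Srtd m → m ⊆ l → m.length = l.length → ψ m = φ m) : srt l ψ = srt l φ := by
  induction l generalizing ψ φ with
  | nil => exact h [] List.Pairwise.nil (fun x hx => hx) rfl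
  | cons a l ih =>
    rw [srt_cons, srt_cons]
    apply ih
    intro m hm1 hm2 hm3
    apply insv_congr a m hm1
    intro k hk1 hk2 hk3
    apply h k hk1
    · intro x hx
      rcases List.mem_cons.mp (hk2 hx) with rfl | hx
      · exact List.mem_cons_self
      · exact List.mem_cons_of_mem _ (hm2 hx)
    · rw [hk3, hm3]; rfl

lemma srt_sub (l : List (ℕ × G)) (ψ φ : List (ℕ × G) → M) :
    srt l (fun m => ψ m - φ m) = srt l ψ - srt l φ := by
  induction l generalizing ψ φ with
  | nil => rfl
  | cons a l ih =>
    rw [srt_cons, srt_cons, srt_cons, ← ih]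
    congr 1
    funext m
    exact insv_sub a ψ φ m

lemma srt_zero (l : List (ℕ × G)) : srt l (fun _ => (0 : M)) = 0 := by
  have := srt_sub l (fun _ => (0 : M)) (fun _ => 0)
  simpa using this

lemma srt_hom (f : M →+ M') (l : List (ℕ × G)) (ψ : List (ℕ × G) → M) :
    f (srt l ψ) = srt l (fun m => f (ψ m)) := by
  induction l generalizing ψ with
  | nil => rfl
  | cons a l ih =>
    rw [srt_cons, srt_cons, ih]
    congr 1
    funext m
    exact insv_hom f a ψ m

lemma srt_del (l : List (ℕ × G)) (hl : ∀ x ∈ l, ∀ y ∈ l, x.1 = y.1 → x = y)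
    (ψ : List (ℕ × G) → M) : srt l (fun m => del m ψ) = del l (fun m => srt m ψ) := by
  induction l generalizing ψ with
  | nil => rfl
  | cons a l ih =>
    rw [srt_cons, del_cons]
    have h1 : srt l (insv a fun m => del m ψ) = srt l (fun s => ψ s - del s (insv a ψ)) := by
      apply srt_congr
      intro m hm1 hm2 _
      apply insv_del a ψ m hm1
      intro x hx hxa
      exact hl x (List.mem_cons_of_mem _ (hm2 hx)) a List.mem_cons_self hxa
    rw [h1, srt_sub, ih fun x hx y hy => hl x (List.mem_cons_of_mem _ hx) y (List.mem_cons_of_mem _ hy)]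
    rfl

lemma insv_map (f : G → G) (a : ℕ × G) (ψ : List (ℕ × G) → M) (s : List (ℕ × G)) :
    insv (Prod.map id f a) ψ (s.map (Prod.map id f)) =
      insv a (fun m => ψ (m.map (Prod.map id f))) s := by
  induction s generalizing ψ with
  | nil => rfl
  | cons b s ih =>
    rw [List.map_cons, insv_cons, insv_cons]
    simp only [Prod.map_fst, id_eq, List.map_cons]
    split_ifs with h1 h2
    · rfl
    · rfl
    · rw [ih]

lemma srt_map (f : G → G) (l : List (ℕ × G)) (ψ : List (ℕ × G) → M) :
    srt (l.map (Prod.map id f)) ψ = srt l (fun m => ψ (m.map (Prod.map id f))) := by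
  have key : ∀ (l : List (ℕ × G)) (φ ψ : List (ℕ × G) → M),
      (∀ m, φ m = ψ (m.map (Prod.map id f))) → srt (l.map (Prod.map id f)) ψ = srt l φ := by
    intro l
    induction l with
    | nil => intro φ ψ h; simp [h]
    | cons a l ih =>
      intro φ ψ h
      rw [List.map_cons, srt_cons, srt_cons]
      apply ih
      intro m
      rw [insv_map]
      congr 1
      funext k
      exact h k
  exact key l _ _ fun m => rfl

lemma srt_eq_zero (l : List (ℕ × G)) (ψ : List (ℕ × G) → M) (S : Finset ℕ)
    (h1 : ∀ x ∈ l, x.1 ∈ S) (h2 : S.card < l.length) : srt l ψ = 0 := by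
  rw [← srt_zero l]
  apply srt_congr
  intro m hm1 hm2 hm3
  exfalso
  have h3 : (m.map Prod.fst).Nodup := by
    rw [List.nodup_iff_pairwise_ne, List.pairwise_map]
    exact hm1.imp fun h => h.ne
  have h4 : (m.map Prod.fst).toFinset ⊆ S := by
    intro j hj
    rw [List.mem_toFinset, List.mem_map] at hj
    obtain ⟨x, hx, rfl⟩ := hj
    exact h1 x (hm2 hx)
  have h5 := Finset.card_le_card h4
  rw [List.toFinset_card_of_nodup h3, List.length_map, hm3] at h5
  omega

end

end Pool.Agent.Y450.FS
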