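import Mathlib
import Pool.Agent.Y450.FS.Srt

/-!
The comparison map from the ordered chains on `ℤ/p` to the periodic resolution, in the form of a
cochain on lists with values in the functions on `ℤ/p`.
-/

set_option autoImplicit false

namespace Pool.Agent.Y450.FS

open H317F Finset

section

variable (p : ℕ) [NeZero p]

/-- functions on `ℤ/p` with values in `ℤ/p` -/
abbrev Fn := ZMod p → ZMod p

/-- translation by `a` -/
def tr (a : ZMod p) : Fn p →+ Fn p where
  toFun w := fun g => w (g - a)
  map_zero' := rfl
  map_add' _ _ := rfl

@[simp] lemma tr_apply (a : ZMod p) (w : Fn p) (g : ZMod p) : tr p a w g = w (g - a) := rfl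

lemma tr_tr (a b : ZMod p) (w : Fn p) : tr p a (tr p b w) = tr p (a + b) w := by
  funext g
  simp only [tr_apply]
  congr 1
  ring

lemma tr_zero (w : Fn p) : tr p 0 w = w := by
  funext g; simp

/-- total sum -/
def eps : Fn p →+ ZMod p where
  toFun w := ∑ g, w g
  map_zero' := by simp
  map_add' _ _ := by simp [Finset.sum_add_distrib]

lemma eps_apply (w : Fn p) : eps p w = ∑ g, w g := rfl

lemma eps_tr (a : ZMod p) (w : Fn p) : eps p (tr p a w) = eps p w := by
  rw [eps_apply, eps_apply]
  exact Fintype.sum_equiv (Equiv.subRight a) _ _ (fun g => rfl)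

/-- first moment -/
def mom : Fn p →+ ZMod p where
  toFun w := ∑ g, g * w g
  map_zero' := by simp
  map_add' _ _ := by simp [Finset.sum_add_distrib, mul_add]

lemma mom_apply (w : Fn p) : mom p w = ∑ g, g * w g := rfl

/-- `T - 1` -/
def dT : Fn p →+ Fn p := tr p 1 - AddMonoidHom.id _

lemma dT_apply (w : Fn p) (g : ZMod p) : dT p w g = w (g - 1) - w g := rfl

/-- the norm -/
def nm : Fn p →+ Fn p where
  toFun w := fun _ => eps p w
  map_zero' := by funext; simp
  map_add' _ _ := by funext; simp

lemma nm_apply (w : Fn p) (g : ZMod p) : nm p w g = eps p w := rfl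

lemma mom_dT (w : Fn p) : mom p (dT p w) = eps p w := by
  rw [mom_apply, eps_apply]
  have h1 : ∑ g : ZMod p, g * dT p w g = ∑ g : ZMod p, g * w (g - 1) - ∑ g : ZMod p, g * w g := by
    rw [← Finset.sum_sub_distrib]
    refine Finset.sum_congr rfl fun g _ => ?_
    rw [dT_apply]; ring
  have h2 : ∑ g : ZMod p, g * w (g - 1) = ∑ g : ZMod p, (g + 1) * w g := by
    refine Fintype.sum_equiv (Equiv.subRight 1) _ _ (fun g => ?_)
    simp
  rw [h1, h2, ← Finset.sum_sub_distrib]
  refine Finset.sum_congr rfl fun g _ => ?_
  ring

/-- the boundary operator on lists of length `n` -/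
def bd (n : ℕ) : Fn p →+ Fn p := if Even n then dT p else nm p

lemma eps_eq_of_bd (n : ℕ) {w w' : Fn p} (h : bd p n w = bd p n w') : eps p w = eps p w' := by
  unfold bd at h
  split_ifs at h
  · rw [← mom_dT, ← mom_dT, h]
  · have := congrFun h 0
    exact this

/-- the contracting homotopies -/
def ht (n : ℕ) : Fn p →+ Fn p where
  toFun w := if Even n then (fun k => if k = 0 then w (-1) else 0)
    else (fun k => ∑ i ∈ univ.filter (fun i : ZMod p => k.val < i.val), w i)
  map_zero' := by split_ifs <;> funext k <;> simp
  map_add' a b := by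
    split_ifs
    · funext k; simp only [Pi.add_apply]; split_ifs <;> simp
    · funext k; simp [Finset.sum_add_distrib]

lemma ht_odd {n : ℕ} (hn : ¬ Even n) (w : Fn p) (k : ZMod p) :
    ht p n w k = ∑ i ∈ univ.filter (fun i : ZMod p => k.val < i.val), w i := by
  show (if Even n then _ else _ : Fn p) k = _
  rw [if_neg hn]

lemma ht_even {n : ℕ} (hn : Even n) (w : Fn p) (k : ZMod p) :
    ht p n w k = if k = 0 then w (-1) else 0 := by
  show (if Even n then _ else _ : Fn p) k = _
  rw [if_pos hn]

/-- the delta function -/
def dl (g : ZMod p) : Fn p := Pi.single g 1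

lemma eps_dl (g : ZMod p) : eps p (dl p g) = 1 := by
  rw [eps_apply]
  simp [dl]

lemma tr_dl (a g : ZMod p) : tr p a (dl p g) = dl p (g + a) := by
  funext k
  simp only [tr_apply, dl, Pi.single_apply]
  congr 1
  apply propext
  constructor
  · intro h; rw [← h]; ring
  · intro h; rw [h]; ring

lemma val_sub_one {k : ZMod p} (hk : k ≠ 0) : (k - 1).val + 1 = k.val := by
  have hp : 0 < p := Nat.pos_of_ne_zero (NeZero.ne p)
  have h1 : 0 < k.val := by
    rw [Nat.pos_iff_ne_zero]
    intro h
    exact hk ((ZMod.val_eq_zero k).mp h)
  have h2 : ((k.val - 1 : ℕ) : ZMod p) = k - 1 := by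
    rw [Nat.cast_sub (by omega)]
    simp
  have h3 : (k - 1).val = k.val - 1 := by
    rw [← h2, ZMod.val_natCast, Nat.mod_eq_of_lt]
    have := ZMod.val_lt k
    omega
  omega

lemma val_neg_one' : (-1 : ZMod p).val = p - 1 := by
  obtain ⟨q, rfl⟩ : ∃ q, p = q + 1 := ⟨p - 1, (Nat.succ_pred_eq_of_ne_zero (NeZero.ne p)).symm⟩
  rw [ZMod.val_neg_one]
  rfl

/-- `(T-1) s w = w - ε(w) δ_0` -/
lemma dT_ht {n : ℕ} (hn : ¬ Even n) (w : Fn p) (k : ZMod p) :
    dT p (ht p n w) k = w k - eps p w * dl p 0 k := by
  rw [dT_apply, ht_odd p hn, ht_odd p hn]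
  by_cases hk : k = 0
  · subst hk
    have h1 : (univ.filter fun i : ZMod p => (0 - 1 : ZMod p).val < i.val) = ∅ := by
      rw [Finset.filter_eq_empty_iff]
      intro i _
      rw [zero_sub, val_neg_one']
      have := ZMod.val_lt i
      omega
    have h2 : (univ.filter fun i : ZMod p => (0 : ZMod p).val < i.val) = univ.erase 0 := by
      ext i
      simp only [mem_filter, mem_univ, true_and, mem_erase, and_true, ZMod.val_zero]
      rw [Nat.pos_iff_ne_zero, ne_eq, ZMod.val_eq_zero]
    rw [h1, h2, Finset.sum_empty, zero_sub, eps_apply, ← Finset.add_sum_erase univ w (mem_univ 0)]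
    simp [dl]
  · have h1 : (univ.filter fun i : ZMod p => (k - 1 : ZMod p).val < i.val) =
        insert k (univ.filter fun i : ZMod p => k.val < i.val) := by
      ext i
      simp only [mem_filter, mem_univ, true_and, mem_insert]
      have := val_sub_one p hk
      constructor
      · intro h
        by_cases hik : i = k
        · exact Or.inl hik
        · right
          have : i.val ≠ k.val := fun h => hik (ZMod.val_injective p h)
          omega
      · rintro (rfl | h)
        · omega
        · omega
    rw [h1, Finset.sum_insert (by simp)]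
    simp [dl, hk]

lemma nm_ht {n : ℕ} (hn : Even n) (w : Fn p) (k : ZMod p) : nm p (ht p n w) k = w (-1) := by
  rw [nm_apply, eps_apply]
  simp only [ht_even p hn]
  simp

lemma ht_nm {n : ℕ} (hn : Even n) (w : Fn p) (k : ZMod p) :
    ht p n (nm p w) k = eps p w * dl p 0 k := by
  rw [ht_even p hn, nm_apply]
  simp only [dl, Pi.single_apply]
  split_ifs <;> simp

lemma ht_dT {n : ℕ} (hn : ¬ Even n) (w : Fn p) (k : ZMod p) :
    ht p n (dT p w) k = w k - w (-1) := by
  rw [ht_odd p hn]
  have hp : 0 < p := Nat.pos_of_ne_zero (NeZero.ne p)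
  have hneg := val_neg_one' p
  have key : ∀ m : ℕ, ∀ k : ZMod p, k.val + m = p - 1 →
      ∑ i ∈ univ.filter (fun i : ZMod p => k.val < i.val), dT p w i = w k - w (-1) := by
    intro m
    induction m with
    | zero =>
      intro k hk
      have hk' : k = -1 := ZMod.val_injective p (by rw [hneg]; omega)
      have h1 : (univ.filter fun i : ZMod p => k.val < i.val) = ∅ := by
        rw [Finset.filter_eq_empty_iff]
        intro i _
        have := ZMod.val_lt i
        omega
      rw [h1, Finset.sum_empty, hk', sub_self]
    | succ m ih =>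
      intro k hk
      have h0 : k + 1 ≠ 0 := by
        intro h
        have h1 : k = -1 := eq_neg_of_add_eq_zero_left h
        rw [h1, hneg] at hk
        omega
      have h1 := val_sub_one p h0
      rw [add_sub_cancel_right] at h1
      have h2 := ih (k + 1) (by omega)
      have h3 : (univ.filter fun i : ZMod p => k.val < i.val) =
          insert (k + 1) (univ.filter fun i : ZMod p => (k + 1).val < i.val) := by
        ext i
        simp only [mem_filter, mem_univ, true_and, mem_insert]
        constructor
        · intro h
          by_cases hik : i = k + 1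
          · exact Or.inl hik
          · right
            have : i.val ≠ (k + 1).val := fun h => hik (ZMod.val_injective p h)
            omega
        · rintro (rfl | h)
          · omega
          · omega
      rw [h3, Finset.sum_insert (by simp), h2, dT_apply]
      simp
  exact key (p - 1 - k.val) k (by have := ZMod.val_lt k; omega)

/-- contraction identity: `∂ s + s ∂ = 1` -/
lemma bd_ht (n : ℕ) (w : Fn p) :
    bd p (n + 2) (ht p (n + 1) w) = w - ht p n (bd p (n + 1) w) := by
  funext k
  rw [Pi.sub_apply]
  by_cases hn : Even n
  · have h1 : ¬ Even (n + 1) := by rw [Nat.even_add_one]; simpa using hn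
    have h2 : Even (n + 2) := by rw [Nat.even_add]; simp [hn]
    unfold bd
    rw [if_pos h2, if_neg h1, dT_ht p h1, ht_nm p hn]
  · have h1 : Even (n + 1) := by rw [Nat.even_add_one]; exact hn
    have h2 : ¬ Even (n + 2) := by rw [Nat.even_add]; simp [hn]
    unfold bd
    rw [if_neg h2, if_pos h1, nm_ht p h1, ht_dT p hn]
    ring

lemma bd_ht_one (w : Fn p) (k : ZMod p) : bd p 2 (ht p 1 w) k = w k - eps p w * dl p 0 k := by
  have h1 : Even 2 := by decide
  unfold bd
  rw [if_pos h1, dT_ht p (by decide)]

lemma bd_tr (n : ℕ) (a : ZMod p) (w : Fn p) : bd p n (tr p a w) = tr p a (bd p n w) := by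
  unfold bd
  split_ifs
  · funext g
    rw [dT_apply, tr_apply, tr_apply, tr_apply, dT_apply]
    congr 2
    ring
  · funext g
    rw [nm_apply, eps_tr, tr_apply, nm_apply]

/-- the comparison cochain -/
def th : List (ZMod p) → Fn p
  | [] => 0
  | g :: l => if l.length = 0 then dl p g else tr p g (ht p l.length (tr p (-g) (th l)))

lemma th_single (g : ZMod p) : th p [g] = dl p g := by
  simp [th]

lemma th_cons (g : ZMod p) (l : List (ZMod p)) (hl : l.length ≠ 0) :
    th p (g :: l) = tr p g (ht p l.length (tr p (-g) (th p l))) := by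
  rw [th, if_neg hl]

lemma th_shift (l : List (ZMod p)) : th p (l.map (· + 1)) = tr p 1 (th p l) := by
  induction l with
  | nil => simp [th]
  | cons g l ih =>
    rw [List.map_cons]
    by_cases hl : l.length = 0
    · have : l = [] := List.length_eq_zero_iff.mp hl
      subst this
      rw [List.map_nil, th_single, th_single, tr_dl]
    · rw [th_cons p _ _ (by simpa using hl), th_cons p _ _ hl, ih, List.length_map, tr_tr, tr_tr]
      congr 1
      · ring_nf
      · congr 2
        ring_nf

lemma th_bd (g : ZMod p) (l : List (ZMod p)) (hl : l.length ≠ 0) :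
    bd p (l.length + 1) (th p (g :: l)) = del (g :: l) (th p) := by
  induction l generalizing g with
  | nil => simp at hl
  | cons h l ih =>
    rw [del_cons]
    by_cases hl' : l.length = 0
    · have : l = [] := List.length_eq_zero_iff.mp hl'
      subst this
      rw [th_cons p _ _ hl, th_single, bd_tr]
      funext k
      simp only [List.length_cons, List.length_nil, zero_add, del_cons, del_nil, sub_zero,
        th_single, Pi.sub_apply]
      rw [tr_apply, bd_ht_one, tr_dl, eps_dl, one_mul]
      simp only [dl, Pi.single_apply]
      congr 2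
      · apply propext
        constructor
        · intro h; linear_combination h
        · intro h; linear_combination h
      · apply propext
        constructor
        · intro h; linear_combination h
        · intro h; linear_combination h
    · have h1 := ih h hl'
      rw [th_cons p _ _ hl, bd_tr]
      show tr p g (bd p (l.length + 2) (ht p (l.length + 1) (tr p (-g) (th p (h :: l))))) = _
      rw [bd_ht, map_sub, tr_tr, add_neg_cancel, tr_zero, bd_tr, h1]
      congr 1
      have h2 := del_map_hom ((tr p g).comp ((ht p l.length).comp (tr p (-g)))) (h :: l) (th p)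
      simp only [AddMonoidHom.comp_apply] at h2
      rw [h2]
      apply del_congr
      intro m hm
      have hm' : m.length = l.length := by simpa using hm
      rw [th_cons p _ _ (by omega), hm']

lemma th_bd' (l : List (ZMod p)) (hl : 2 ≤ l.length) : bd p l.length (th p l) = del l (th p) := by
  cases l with
  | nil => simp at hl
  | cons g l =>
    have : l.length ≠ 0 := by
      intro h; simp [h] at hl
    exact th_bd p g l this

end

end Pool.Agent.Y450.FS
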