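import Mathlib
import Pool.Agent.Y450.FS.Theta

/-!
The pairing with the basic chains of the join of copies of `ℤ/p`.
-/

set_option autoImplicit false
set_option linter.unusedSectionVars false

namespace Pool.Agent.Y450.FS

open H317F Finset

section Psi

variable (p : ℕ) [NeZero p] {E : Type*}

/-- the cochain on lists of labels -/
def thL (m : List (ℕ × ZMod p)) : Fn p := th p (m.map Prod.snd)

/-- the cochain on lists of points given by the labels -/
def psi (lam : E → ℕ × ZMod p) (l : List E) : Fn p := srt (l.map lam) (thL p)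

lemma psi_single (lam : E → ℕ × ZMod p) (x : E) : psi p lam [x] = dl p (lam x).2 := by
  simp [psi, srt, insv, thL, th_single]

lemma thL_shift (m : List (ℕ × ZMod p)) :
    thL p (m.map (Prod.map id (· + 1))) = tr p 1 (thL p m) := by
  unfold thL
  rw [List.map_map, ← th_shift, List.map_map]
  congr 1

lemma psi_shift (lam : E → ℕ × ZMod p) (T : E → E) (l : List E)
    (hT : ∀ x ∈ l, lam (T x) = ((lam x).1, (lam x).2 + 1)) :
    psi p lam (l.map T) = tr p 1 (psi p lam l) := by
  unfold psi
  have h1 : (l.map T).map lam = (l.map lam).map (Prod.map id (· + 1)) := by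
    rw [List.map_map, List.map_map]
    apply List.map_congr_left
    intro x hx
    exact hT x hx
  rw [h1, srt_map, srt_hom]
  congr 1
  funext m
  exact thL_shift p m

lemma psi_bd (lam : E → ℕ × ZMod p) (l : List E) (hl : 2 ≤ l.length)
    (hc : ∀ x ∈ l, ∀ y ∈ l, (lam x).1 = (lam y).1 → (lam x).2 = (lam y).2) :
    bd p l.length (psi p lam l) = del l (psi p lam) := by
  unfold psi
  rw [srt_hom]
  have h1 : srt (l.map lam) (fun m => bd p l.length (thL p m)) =
      srt (l.map lam) (fun m => del m (thL p)) := by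
    apply srt_congr
    intro m _ _ hm
    rw [List.length_map] at hm
    unfold thL
    rw [← hm, ← List.length_map (f := Prod.snd) (as := m), th_bd' p _ (by simp [hm, hl]), del_map]
  rw [h1, srt_del, del_map]
  intro x hx y hy hxy
  obtain ⟨x', hx', rfl⟩ := List.mem_map.mp hx
  obtain ⟨y', hy', rfl⟩ := List.mem_map.mp hy
  exact Prod.ext hxy (hc x' hx' y' hy' hxy)

lemma psi_zero (lam : E → ℕ × ZMod p) (l : List E) (S : Finset ℕ)
    (h1 : ∀ x ∈ l, (lam x).1 ∈ S) (h2 : S.card < l.length) : psi p lam l = 0 := by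
  apply srt_eq_zero _ _ S
  · intro y hy
    obtain ⟨x, hx, rfl⟩ := List.mem_map.mp hy
    exact h1 x hx
  · simpa using h2

end Psi

section Zp

variable {E M M' : Type*} [AddCommGroup M] [AddCommGroup M'] (T : E → E) (v : ℕ → E) (p : ℕ)

/-- the dual of the operators `T - 1` (even `n`) and `1 + T + ⋯ + T ^ (p - 1)` (odd `n`) -/
def Dst (n : ℕ) (φ : List E → M) (l : List E) : M :=
  if Even n then φ (l.map T) - φ l else ∑ i ∈ range p, φ (l.map T^[i])

/-- pairing with the chain `z_n` where `z_0 = [v 0]`, `z_{n+1} = v (n+1) * D_n z_n` -/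
def Zc : ℕ → (List E → M) → M
  | 0, Φ => Φ [v 0]
  | n + 1, Φ => Zc n (Dst T p n (fun l => Φ (v (n + 1) :: l)))

/-- the lists occurring in `z_n` -/
def IsK : ℕ → List E → Prop
  | 0, l => ∃ i, l = [T^[i] (v 0)]
  | n + 1, l => ∃ i l', l = T^[i] (v (n + 1)) :: l' ∧ IsK n l'

variable {T v p}

lemma IsK.length {n : ℕ} {l : List E} (h : IsK T v n l) : l.length = n + 1 := by
  induction n generalizing l with
  | zero => obtain ⟨i, rfl⟩ := h; rfl
  | succ n ih =>
    obtain ⟨i, l', rfl, h'⟩ := h
    simp [ih h']

lemma IsK.map {n : ℕ} {l : List E} (h : IsK T v n l) (j : ℕ) : IsK T v n (l.map T^[j]) := by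
  induction n generalizing l with
  | zero =>
    obtain ⟨i, rfl⟩ := h
    exact ⟨j + i, by simp [Function.iterate_add_apply]⟩
  | succ n ih =>
    obtain ⟨i, l', rfl, h'⟩ := h
    exact ⟨j + i, l'.map T^[j], by simp [Function.iterate_add_apply], ih h'⟩

lemma IsK.map_one {n : ℕ} {l : List E} (h : IsK T v n l) : IsK T v n (l.map T) := by
  have := h.map 1
  simpa using this

lemma Zc_congr (n : ℕ) {Φ Φ' : List E → M} (h : ∀ l, IsK T v n l → Φ l = Φ' l) :
    Zc T v p n Φ = Zc T v p n Φ' := by
  induction n generalizing Φ Φ' with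
  | zero => exact h _ ⟨0, rfl⟩
  | succ n ih =>
    show Zc T v p n _ = Zc T v p n _
    apply ih
    intro l hl
    have h1 : ∀ l, IsK T v n l → Φ (v (n + 1) :: l) = Φ' (v (n + 1) :: l) :=
      fun l hl => h _ ⟨0, l, rfl, hl⟩
    unfold Dst
    split_ifs
    · show Φ (v (n + 1) :: l.map T) - Φ (v (n + 1) :: l) =
        Φ' (v (n + 1) :: l.map T) - Φ' (v (n + 1) :: l)
      rw [h1 _ hl.map_one, h1 _ hl]
    · exact Finset.sum_congr rfl fun i _ => h1 _ (hl.map i)

lemma Dst_sub (n : ℕ) (Φ Φ' : List E → M) (l : List E) :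
    Dst T p n (fun m => Φ m - Φ' m) l = Dst T p n Φ l - Dst T p n Φ' l := by
  unfold Dst
  split_ifs
  · show (Φ (l.map T) - Φ' (l.map T)) - (Φ l - Φ' l) = _
    abel
  · rw [Finset.sum_sub_distrib]

lemma Zc_sub (n : ℕ) (Φ Φ' : List E → M) :
    Zc T v p n (fun m => Φ m - Φ' m) = Zc T v p n Φ - Zc T v p n Φ' := by
  induction n generalizing Φ Φ' with
  | zero => rfl
  | succ n ih =>
    show Zc T v p n _ = Zc T v p n _ - Zc T v p n _
    rw [← ih]
    congr 1
    funext l
    exact Dst_sub n _ _ l

lemma Zc_hom (f : M →+ M') (n : ℕ) (Φ : List E → M) :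
    f (Zc T v p n Φ) = Zc T v p n (fun l => f (Φ l)) := by
  induction n generalizing Φ with
  | zero => rfl
  | succ n ih =>
    show f (Zc T v p n _) = Zc T v p n _
    rw [ih]
    congr 1
    funext l
    unfold Dst
    split_ifs
    · rw [map_sub]
    · rw [map_sum]

lemma Dst_del (n : ℕ) (Φ : List E → M) (l : List E) :
    Dst T p n (fun m => del m Φ) l = del l (Dst T p n Φ) := by
  have h0 : del l (Dst T p n Φ) = del l (fun m => if Even n then Φ (m.map T) - Φ m else
      ∑ i ∈ range p, Φ (m.map T^[i])) := rfl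
  rw [h0]
  unfold Dst
  split_ifs
  · show del (l.map T) Φ - del l Φ = _
    rw [del_sub, del_map]
  · rw [del_sum]
    exact Finset.sum_congr rfl fun i _ => del_map _ _ _

lemma Dst_Dst (hT : ∀ x, T^[p] x = x) (n : ℕ) (Φ : List E → M) (l : List E) :
    Dst T p n (Dst T p (n + 1) Φ) l = 0 := by
  have hcomp : ∀ (i j : ℕ) (l : List E), (l.map T^[i]).map T^[j] = l.map T^[i + j] := by
    intro i j l
    rw [List.map_map]
    apply List.map_congr_left
    intro x _
    rw [Function.comp_apply, ← Function.iterate_add_apply, add_comm]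
  have hp : l.map T^[p] = l := by
    conv_rhs => rw [← List.map_id l]
    apply List.map_congr_left
    intro x _
    exact hT x
  have hshift : ∑ i ∈ range p, Φ (l.map T^[i + 1]) = ∑ i ∈ range p, Φ (l.map T^[i]) := by
    have h1 := Finset.sum_range_succ (fun i => Φ (l.map T^[i])) p
    have h2 := Finset.sum_range_succ' (fun i => Φ (l.map T^[i])) p
    rw [h1, hp] at h2
    have h3 : l.map T^[0] = l := by simp
    rw [h3] at h2
    exact (add_right_cancel h2).symm
  by_cases hn : Even n
  · have hn' : ¬ Even (n + 1) := by rw [Nat.even_add_one]; simpa using hn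
    unfold Dst
    rw [if_pos hn, if_neg hn', if_neg hn']
    have h1 : ∀ i, (l.map T).map T^[i] = l.map T^[i + 1] := by
      intro i
      have := hcomp 1 i l
      rw [add_comm 1 i] at this
      exact this
    simp only [h1]
    rw [hshift, sub_self]
  · have hn' : Even (n + 1) := by rw [Nat.even_add_one]; exact hn
    unfold Dst
    rw [if_neg hn]
    simp only [if_pos hn']
    rw [Finset.sum_sub_distrib]
    have h1 : ∀ i, (l.map T^[i]).map T = l.map T^[i + 1] := fun i => hcomp i 1 l
    simp only [h1]
    rw [hshift, sub_self]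

/-- the boundary of `z_{n+1}` is `D_n z_n` -/
lemma Zc_del (hT : ∀ x, T^[p] x = x) (n : ℕ) (Φ : List E → M) :
    Zc T v p (n + 1) (fun m => del m Φ) = Zc T v p n (Dst T p n Φ) := by
  induction n generalizing Φ with
  | zero =>
    show Zc T v p 0 (Dst T p 0 (fun l => del (v 1 :: l) Φ)) = _
    have h1 : (Dst T p 0 (fun l => del (v 1 :: l) Φ)) =
        fun l => Dst T p 0 Φ l - del l (Dst T p 0 (fun m => Φ (v 1 :: m))) := by
      funext l
      simp only [del_cons]
      rw [Dst_sub, Dst_del]
    rw [h1, Zc_sub]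
    have h2 : Zc T v p 0 (fun l => del l (Dst T p 0 (fun m => Φ (v 1 :: m)))) = 0 := by
      show del [v 0] _ = 0
      simp [Dst]
    rw [h2, sub_zero]
  | succ n ih =>
    show Zc T v p (n + 1) (Dst T p (n + 1) (fun l => del (v (n + 2) :: l) Φ)) = _
    have h1 : (Dst T p (n + 1) (fun l => del (v (n + 2) :: l) Φ)) =
        fun l => Dst T p (n + 1) Φ l - del l (Dst T p (n + 1) (fun m => Φ (v (n + 2) :: m))) := by
      funext l
      simp only [del_cons]
      rw [Dst_sub, Dst_del]
    rw [h1, Zc_sub, ih]
    have h2 : Zc T v p n (Dst T p n (Dst T p (n + 1) fun m => Φ (v (n + 2) :: m))) = 0 := by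
      have h3 : (Dst T p n (Dst T p (n + 1) fun m => Φ (v (n + 2) :: m))) = fun _ => 0 := by
        funext l; exact Dst_Dst hT n _ l
      rw [h3]
      have := Zc_sub (T := T) (v := v) (p := p) n (fun _ => (0 : M)) (fun _ => 0)
      simpa using this
    rw [h2, sub_zero]

end Zp

section Main

variable {E : Type*} {T : E → E} {v : ℕ → E} (p : ℕ) [NeZero p]

/-- the main computation: an equivariant chain map cannot vanish in some degree -/
theorem chain_contra (hp : 2 ≤ p) (hT : ∀ x, T^[p] x = x) (N : ℕ) (Ψ : List E → Fn p)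
    (h0 : ∀ x, eps p (Ψ [x]) = 1)
    (h1 : ∀ n ≤ N, ∀ l, IsK T v n l → Ψ (l.map T) = tr p 1 (Ψ l))
    (h2 : ∀ n < N, ∀ l, IsK T v (n + 1) l → bd p (n + 2) (Ψ l) = del l Ψ)
    (h3 : ∀ l, IsK T v N l → Ψ l = 0) : False := by
  have key : ∀ n ≤ N, eps p (Zc T v p n Ψ) = 1 := by
    intro n
    induction n with
    | zero => intro _; exact h0 _
    | succ n ih =>
      intro hn
      rw [← ih (by omega)]
      apply eps_eq_of_bd p (n + 2)
      rw [Zc_hom]
      have e1 : Zc T v p (n + 1) (fun l => bd p (n + 2) (Ψ l)) =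
          Zc T v p (n + 1) (fun l => del l Ψ) := by
        apply Zc_congr
        intro l hl
        exact h2 n (by omega) l hl
      rw [e1, Zc_del hT, Zc_hom]
      apply Zc_congr
      intro l hl
      have hiter : ∀ i : ℕ, Ψ (l.map T^[i]) = tr p (i : ZMod p) (Ψ l) := by
        intro i
        induction i with
        | zero => simp [tr_zero]
        | succ i ihi =>
          have : l.map T^[i + 1] = (l.map T^[i]).map T := by
            rw [List.map_map]
            apply List.map_congr_left
            intro x _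
            rw [Function.iterate_succ_apply']
            rfl
          rw [this, h1 n (by omega) _ (hl.map i), ihi, tr_tr]
          congr 2
          push_cast
          ring
      unfold Dst bd
      by_cases hn' : Even n
      · have hn2 : Even (n + 2) := by rw [Nat.even_add]; simp [hn']
        rw [if_pos hn', if_pos hn2, h1 n (by omega) _ hl]
        rfl
      · have hn2 : ¬ Even (n + 2) := by rw [Nat.even_add]; simp [hn']
        rw [if_neg hn', if_neg hn2]
        funext g
        rw [nm_apply, Finset.sum_apply]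
        simp only [hiter, tr_apply]
        rw [eps_apply]
        have e2 : ∑ i ∈ range p, Ψ l (g - (i : ZMod p)) = ∑ j : ZMod p, Ψ l (g - j) := by
          symm
          apply Finset.sum_bij' (fun (j : ZMod p) _ => j.val) (fun (i : ℕ) _ => (i : ZMod p))
          · intro j _; exact mem_range.mpr (ZMod.val_lt j)
          · intro i _; exact mem_univ _
          · intro j _; simp
          · intro i hi
            rw [ZMod.val_natCast, Nat.mod_eq_of_lt (mem_range.mp hi)]
          · intro j _; simp
        rw [e2]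
        exact Fintype.sum_equiv (Equiv.subLeft g) _ _ (fun j => rfl)
  have h4 := key N le_rfl
  have h5 : Zc T v p N Ψ = 0 := by
    rw [Zc_congr N (Φ' := fun _ => 0) h3]
    have := Zc_sub (T := T) (v := v) (p := p) N (fun _ => (0 : Fn p)) (fun _ => 0)
    simpa using this
  rw [h5, map_zero] at h4
  have : Nontrivial (ZMod p) := ZMod.nontrivial_iff.mpr (by omega)
  exact zero_ne_one h4

end Main

end Pool.Agent.Y450.FS
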