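import Pool.Agent.Y450.FS.Top

/-!
# Regular polygons and retractions of finite subset spaces

Given a retraction `r` from the nonempty sets of at most `p` points of a complex inner product
space onto those of at most `p - 1` points (`p` prime) whose Lipschitz constant is small compared
with `p`, we read off from the images of the regular `p`-gons `{χ k • u}` a labelling of the unit
sphere which `no_labels` forbids.
-/

set_option autoImplicit false

namespace Pool.Agent.Y450.FS

open Complex Metric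

noncomputable section

/-! ## The character -/

/-- The standard character of `ZMod p`. -/
def ch {p : ℕ} [NeZero p] (k : ZMod p) : ℂ := ZMod.stdAddChar k

section character

variable {p : ℕ} [NeZero p]

lemma ch_zero : ch (0 : ZMod p) = 1 := by simp [ch]

lemma ch_add (a b : ZMod p) : ch (a + b) = ch a * ch b := by
  simp [ch, AddChar.map_add_eq_mul]

lemma norm_ch (a : ZMod p) : ‖ch a‖ = 1 := by
  simp [ch]

lemma ch_ne_zero (a : ZMod p) : ch a ≠ 0 := by
  intro h
  have := norm_ch a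
  rw [h, norm_zero] at this
  exact zero_ne_one this

lemma conj_ch (a : ZMod p) : (starRingEnd ℂ) (ch a) = ch (-a) := by
  have h1 : ch a * ch (-a) = 1 := by rw [← ch_add, add_neg_cancel, ch_zero]
  have h2 : ch a * (starRingEnd ℂ) (ch a) = 1 := by
    rw [Complex.mul_conj, Complex.normSq_eq_norm_sq, norm_ch]; simp
  exact mul_left_cancel₀ (ch_ne_zero a) (h2.trans h1.symm)

lemma ch_ne_one {a : ZMod p} (ha : a ≠ 0) : ch a ≠ 1 := by
  intro h
  apply ha
  have h0 : ch a = ch (0 : ZMod p) := by rw [h, ch_zero]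
  exact ZMod.injective_stdAddChar h0

lemma ch_nsmul (n : ℕ) (a : ZMod p) : ch (n • a) = ch a ^ n := by
  induction n with
  | zero => simp [ch_zero]
  | succ n ih => rw [succ_nsmul, ch_add, ih, pow_succ]

lemma ch_one_sub_le : ‖ch (1 : ZMod p) - 1‖ ≤ 2 * Real.pi / p := by
  have h1 : ch (1 : ZMod p) = Complex.exp (Complex.I * ((2 * Real.pi / p : ℝ) : ℂ)) := by
    have := ZMod.stdAddChar_coe (N := p) 1
    simp only [Int.cast_one] at this
    rw [ch, this]
    congr 1
    push_cast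
    ring
  rw [h1]
  refine (Real.norm_exp_I_mul_ofReal_sub_one_le).trans ?_
  rw [Real.norm_eq_abs, abs_of_nonneg (by positivity)]

lemma exists_sep (p : ℕ) [NeZero p] :
    ∃ s : ℝ, 0 < s ∧ ∀ m : ZMod p, m ≠ 0 → s ≤ ‖1 - ch m‖ := by
  classical
  by_cases hne : ((Finset.univ : Finset (ZMod p)).erase 0).Nonempty
  · obtain ⟨m, hm, hmin⟩ := Finset.exists_min_image _ (fun m : ZMod p => ‖1 - ch m‖) hne
    refine ⟨‖1 - ch m‖, ?_, ?_⟩
    · rw [norm_pos_iff, sub_ne_zero]
      exact (ch_ne_one (Finset.ne_of_mem_erase hm)).symm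
    · intro k hk
      exact hmin k (Finset.mem_erase.2 ⟨hk, Finset.mem_univ _⟩)
  · refine ⟨1, one_pos, ?_⟩
    intro m hm
    exact absurd ⟨m, Finset.mem_erase.2 ⟨hm, Finset.mem_univ _⟩⟩ hne

end character

/-! ## Separation -/

/-- A set of fewer than `p` points near the `p`-th roots of unity is moved by every rotation. -/
lemma sep {p : ℕ} [NeZero p] (hp : p.Prime) {s : ℝ}
    (hs : ∀ m : ZMod p, m ≠ 0 → s ≤ ‖1 - ch m‖) {η : ℝ} (hη : 0 ≤ η) (hη' : 4 * p * η < s)
    {B : Finset ℂ} (hB : B.Nonempty) (hc : B.card ≤ p - 1) (hn : ∀ z ∈ B, 1 / 2 ≤ ‖z‖)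
    {g : ZMod p} (hg : g ≠ 0) (h : ∀ z ∈ B, ∃ z' ∈ B, ‖ch g * z - z'‖ ≤ η) : False := by
  classical
  choose! f hf using h
  obtain ⟨b, hb⟩ := hB
  have hmem : ∀ j : ℕ, f^[j] b ∈ B := by
    intro j
    induction j with
    | zero => exact hb
    | succ j ih => rw [Function.iterate_succ_apply']; exact (hf _ ih).1
  have hdist : ∀ j : ℕ, ‖ch g ^ j * b - f^[j] b‖ ≤ j * η := by
    intro j
    induction j with
    | zero => simp
    | succ j ih =>
      rw [Function.iterate_succ_apply']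
      have h1 := (hf _ (hmem j)).2
      have h2 : ch g ^ (j + 1) * b - f (f^[j] b)
          = ch g * (ch g ^ j * b - f^[j] b) + (ch g * f^[j] b - f (f^[j] b)) := by
        ring
      rw [h2]
      refine (norm_add_le _ _).trans ?_
      rw [norm_mul, norm_ch, one_mul]
      push_cast
      linarith
  have hp1 : 1 < p := hp.one_lt
  obtain ⟨i, hi, j, hj, hij, hfij⟩ := Finset.exists_ne_map_eq_of_card_lt_of_maps_to
    (s := Finset.range p) (t := B) (f := fun j => f^[j] b) (by rw [Finset.card_range]; omega)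
    (fun j _ => hmem j)
  -- without loss of generality `i < j`
  have key : ∀ i j : ℕ, i < p → j < p → i < j → f^[i] b = f^[j] b → False := by
    intro i j hi hj hij hfij
    have h1 := hdist i
    have h2 := hdist j
    rw [← hfij] at h2
    have h3 : ‖ch g ^ i * b - ch g ^ j * b‖ ≤ i * η + j * η := by
      have : ch g ^ i * b - ch g ^ j * b
          = (ch g ^ i * b - f^[i] b) - (ch g ^ j * b - f^[i] b) := by ring
      rw [this]
      exact (norm_sub_le _ _).trans (add_le_add h1 h2)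
    have h4 : ch g ^ i * b - ch g ^ j * b = ch g ^ i * ((1 - ch ((j - i) • g)) * b) := by
      rw [ch_nsmul]
      have : ch g ^ j = ch g ^ i * ch g ^ (j - i) := by rw [← pow_add]; congr 1; omega
      rw [this]; ring
    rw [h4, norm_mul, norm_mul, norm_pow, norm_ch, one_pow, one_mul] at h3
    have h5 : (j - i) • g ≠ 0 := by
      have := Fact.mk hp
      rw [nsmul_eq_mul]
      apply mul_ne_zero _ hg
      intro h0
      rw [ZMod.natCast_eq_zero_iff] at h0
      have := Nat.le_of_dvd (by omega) h0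
      omega
    have h6 := hs _ h5
    have h7 := hn b hb
    have hs0 : 0 ≤ s := le_trans (by positivity) hη'.le
    have h8 : s * (1 / 2) ≤ ‖1 - ch ((j - i) • g)‖ * ‖b‖ :=
      mul_le_mul h6 h7 (by norm_num) (norm_nonneg _)
    have hip : (i : ℝ) ≤ p := by exact_mod_cast hi.le
    have hjp : (j : ℝ) ≤ p := by exact_mod_cast hj.le
    have h9 : (i : ℝ) * η + j * η ≤ 2 * (p * η) := by nlinarith
    nlinarith
  have hfij' : f^[i] b = f^[j] b := hfij
  rcases lt_or_gt_of_ne hij with h | h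
  · exact key i j (Finset.mem_range.1 hi) (Finset.mem_range.1 hj) h hfij'
  · exact key j i (Finset.mem_range.1 hj) (Finset.mem_range.1 hi) h hfij'.symm

/-! ## Cells -/

/-- The grid cell of a complex number. -/
def cell (δ : ℝ) (z : ℂ) : ℤ × ℤ := (⌊z.re / δ⌋, ⌊z.im / δ⌋)

lemma cell_dist {δ : ℝ} (hδ : 0 < δ) {z w : ℂ} (h : cell δ z = cell δ w) : ‖z - w‖ ≤ 2 * δ := by
  have h1 : ⌊z.re / δ⌋ = ⌊w.re / δ⌋ := congrArg Prod.fst h
  have h2 : ⌊z.im / δ⌋ = ⌊w.im / δ⌋ := congrArg Prod.snd h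
  have h3 : |z.re / δ - w.re / δ| < 1 := Int.abs_sub_lt_one_of_floor_eq_floor h1
  have h4 : |z.im / δ - w.im / δ| < 1 := Int.abs_sub_lt_one_of_floor_eq_floor h2
  rw [← sub_div, abs_div, abs_of_pos hδ, div_lt_one hδ] at h3 h4
  calc ‖z - w‖ ≤ |(z - w).re| + |(z - w).im| := Complex.norm_le_abs_re_add_abs_im _
    _ ≤ δ + δ := by
      rw [Complex.sub_re, Complex.sub_im]; exact add_le_add h3.le h4.le
    _ = 2 * δ := by ring

lemma cell_mem {δ : ℝ} (hδ : 0 < δ) {z : ℂ} (h : ‖z‖ ≤ 2) :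
    cell δ z ∈ (Finset.Icc (-⌈2 / δ⌉) ⌈2 / δ⌉) ×ˢ (Finset.Icc (-⌈2 / δ⌉) ⌈2 / δ⌉) := by
  have key : ∀ x : ℝ, |x| ≤ 2 → ⌊x / δ⌋ ∈ Finset.Icc (-⌈2 / δ⌉) ⌈2 / δ⌉ := by
    intro x hx
    rw [abs_le] at hx
    rw [Finset.mem_Icc]
    constructor
    · rw [Int.le_floor]
      push_cast
      have h1 : 2 / δ ≤ ⌈2 / δ⌉ := Int.le_ceil _
      have h2 : -(2 / δ) ≤ x / δ := by
        rw [← neg_div]; gcongr; exact hx.1
      linarith
    · have h1 : (2 : ℝ) / δ ≤ ⌈2 / δ⌉ := Int.le_ceil _
      have h2 : x / δ ≤ 2 / δ := by gcongr; exact hx.2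
      have h3 : (⌊x / δ⌋ : ℝ) ≤ x / δ := Int.floor_le _
      exact_mod_cast h3.trans (h2.trans h1)
  rw [Finset.mem_product]
  exact ⟨key _ ((Complex.abs_re_le_norm z).trans h), key _ ((Complex.abs_im_le_norm z).trans h)⟩

/-! ## Finite sets and the Hausdorff distance -/

lemma exists_dist_le {X : Type*} [MetricSpace X] {s t : Finset X} (hs : s.Nonempty)
    (ht : t.Nonempty) {x : X} (hx : x ∈ s) :
    ∃ y ∈ t, dist x y ≤ hausdorffDist (s : Set X) (t : Set X) := by
  have hfin : hausdorffEDist (s : Set X) (t : Set X) ≠ ⊤ :=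
    hausdorffEDist_ne_top_of_nonempty_of_bounded hs ht s.finite_toSet.isBounded
      t.finite_toSet.isBounded
  have h1 : infDist x (t : Set X) ≤ hausdorffDist (s : Set X) (t : Set X) :=
    infDist_le_hausdorffDist_of_mem (Finset.mem_coe.2 hx) hfin
  obtain ⟨y, hy, hxy⟩ := t.finite_toSet.isCompact.exists_infDist_eq_dist ht x
  exact ⟨y, hy, hxy ▸ h1⟩

end

end Pool.Agent.Y450.FS
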