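import Mathlib
import Pool.Agent.Y450.FS.Chain

/-!
A Lusternik-Schnirelmann theorem for the free action of `ℤ/p` (any `p ≥ 2`) on the unit sphere of
an infinite dimensional complex inner product space.
-/

set_option autoImplicit false
set_option linter.unusedSectionVars false

namespace Pool.Agent.Y450.FS

open H317F Finset

lemma SdI_single {E M : Type*} [NormedAddCommGroup E] [NormedSpace ℝ E] [AddCommGroup M] (r : ℕ)
    (ψ : List E → M) (x : E) : SdI r ψ [x] = ψ [x] := by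
  induction r with
  | zero => rfl
  | succ r ih =>
    rw [SdI_succ]
    show sd bary 1 (SdI r ψ) [x] = _
    rw [sd_succ, del_cons, del_nil, sub_zero, sd_zero']
    have : bary [x] = x := by simp [bary]
    rw [this, ih]

lemma SdI_sub' {E M : Type*} [NormedAddCommGroup E] [NormedSpace ℝ E] [AddCommGroup M] (r : ℕ)
    (ψ φ : List E → M) (l : List E) :
    SdI r (fun m => ψ m - φ m) l = SdI r ψ l - SdI r φ l := by
  induction r generalizing l with
  | zero => rfl
  | succ r ih =>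
    rw [SdI_succ, SdI_succ, SdI_succ]
    have : SdI r (fun m => ψ m - φ m) = fun m => SdI r ψ m - SdI r φ m := by
      funext m; exact ih m
    rw [this]
    exact sd_sub _ _ _ _ _

section

variable {H : Type*} [NormedAddCommGroup H] [InnerProductSpace ℂ H]

open scoped InnerProductSpace

/-- multiplication by `ζ` -/
noncomputable def mulT (ζ : ℂ) : H →ₗ[ℝ] H := (LinearMap.lsmul ℂ H ζ).restrictScalars ℝ

@[simp] lemma mulT_apply (ζ : ℂ) (x : H) : mulT ζ x = ζ • x := rfl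

lemma mulT_iterate (ζ : ℂ) (i : ℕ) (x : H) : (mulT ζ : H → H)^[i] x = ζ ^ i • x := by
  induction i with
  | zero => simp
  | succ i ih => rw [Function.iterate_succ_apply', ih, mulT_apply, smul_smul, ← pow_succ']

lemma K_orth {e : ℕ → H} (he : Orthonormal ℂ e) {ζ : ℂ} (hζ : ‖ζ‖ = 1) (n : ℕ) (l : List H)
    (hl : IsK (mulT ζ) e n l) :
    (∀ k, n < k → ∀ i : ℕ, ∀ z ∈ l, ⟪ζ ^ i • e k, z⟫_ℂ = 0) ∧ (∀ z ∈ l, ‖z‖ = 1) ∧
      ∀ z ∈ l, ⟪l.sum, z⟫_ℂ = 1 := by
  have hn : ∀ i k, ‖ζ ^ i • e k‖ = 1 := by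
    intro i k
    rw [norm_smul, norm_pow, hζ, one_pow, he.1 k, one_mul]
  have ho : ∀ i j k k', k ≠ k' → ⟪ζ ^ i • e k, ζ ^ j • e k'⟫_ℂ = 0 := by
    intro i j k k' hk
    rw [inner_smul_left, inner_smul_right, he.2 hk]
    simp
  have hs : ∀ i k, ⟪ζ ^ i • e k, ζ ^ i • e k⟫_ℂ = 1 := by
    intro i k
    rw [inner_self_eq_norm_sq_to_K, hn]
    simp
  induction n generalizing l with
  | zero =>
    obtain ⟨i, rfl⟩ := hl
    simp only [mulT_iterate, List.mem_singleton, forall_eq]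
    refine ⟨fun k hk j => ho _ _ _ _ (by omega), hn _ _, ?_⟩
    simp only [List.sum_cons, List.sum_nil, add_zero]
    exact hs _ _
  | succ n ih =>
    obtain ⟨i, l', rfl, hl'⟩ := hl
    obtain ⟨h1, h2, h3⟩ := ih l' hl'
    rw [mulT_iterate]
    refine ⟨?_, ?_, ?_⟩
    · intro k hk j z hz
      rcases List.mem_cons.mp hz with rfl | hz
      · exact ho _ _ _ _ (by omega)
      · exact h1 k (by omega) j z hz
    · intro z hz
      rcases List.mem_cons.mp hz with rfl | hz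
      · exact hn _ _
      · exact h2 z hz
    · intro z hz
      rw [List.sum_cons, inner_add_left]
      rcases List.mem_cons.mp hz with rfl | hz
      · rw [hs]
        have h4 : ⟪ζ ^ i • e (n + 1), l'.sum⟫_ℂ = 0 := by
          have h5 : ∀ m : List H, (∀ z ∈ m, ⟪ζ ^ i • e (n + 1), z⟫_ℂ = 0) →
              ⟪ζ ^ i • e (n + 1), m.sum⟫_ℂ = 0 := by
            intro m
            induction m with
            | nil => intro _; simp
            | cons a m ihm =>
              intro hm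
              rw [List.sum_cons, inner_add_right, hm a List.mem_cons_self,
                ihm fun z hz => hm z (List.mem_cons_of_mem _ hz), add_zero]
          exact h5 l' (h1 (n + 1) (by omega) i)
        rw [← inner_conj_symm, h4]
        simp
      · rw [h1 (n + 1) (by omega) i z hz, h3 z hz, zero_add]

lemma K_norm {e : ℕ → H} (he : Orthonormal ℂ e) {ζ : ℂ} (hζ : ‖ζ‖ = 1) (n : ℕ) (l : List H)
    (hl : IsK (mulT ζ) e n l) {x : H} (hx : x ∈ convexHull ℝ {y | y ∈ l}) :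
    1 ≤ ((n : ℝ) + 1) * ‖x‖ := by
  obtain ⟨-, h2, h3⟩ := K_orth he hζ n l hl
  have h4 : x ∈ {x : H | (⟪l.sum, x⟫_ℂ).re = 1} := by
    refine convexHull_min ?_ ?_ hx
    · intro z hz
      show (⟪l.sum, z⟫_ℂ).re = 1
      rw [h3 z hz]; simp
    · intro a ha b hb u v hu hv huv
      show (⟪l.sum, u • a + v • b⟫_ℂ).re = 1
      have ha' : (⟪l.sum, a⟫_ℂ).re = 1 := ha
      have hb' : (⟪l.sum, b⟫_ℂ).re = 1 := hb
      rw [inner_add_right]
      have e1 : (u • a : H) = (u : ℂ) • a := (RCLike.real_smul_eq_coe_smul (K := ℂ) u a)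
      have e2 : (v • b : H) = (v : ℂ) • b := (RCLike.real_smul_eq_coe_smul (K := ℂ) v b)
      rw [e1, e2, inner_smul_right, inner_smul_right, Complex.add_re, Complex.re_ofReal_mul,
        Complex.re_ofReal_mul, ha', hb', mul_one, mul_one, huv]
  have h5 : ‖l.sum‖ ≤ (n : ℝ) + 1 := by
    have h6 : ∀ m : List H, (∀ z ∈ m, ‖z‖ = 1) → ‖m.sum‖ ≤ m.length := by
      intro m
      induction m with
      | nil => intro _; simp
      | cons a m ihm =>
        intro hm
        rw [List.sum_cons, List.length_cons]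
        refine (norm_add_le _ _).trans ?_
        rw [hm a List.mem_cons_self]
        have := ihm fun z hz => hm z (List.mem_cons_of_mem _ hz)
        push_cast
        linarith
    have h7 := h6 l h2
    rw [hl.length] at h7
    push_cast at h7
    exact h7
  calc (1 : ℝ) = (⟪l.sum, x⟫_ℂ).re := h4.symm
    _ ≤ ‖⟪l.sum, x⟫_ℂ‖ := Complex.re_le_norm _
    _ ≤ ‖l.sum‖ * ‖x‖ := norm_inner_le_norm _ _
    _ ≤ ((n : ℝ) + 1) * ‖x‖ := by gcongr

/-- normalisation -/
noncomputable def nz (x : H) : H := ((‖x‖⁻¹ : ℝ) : ℂ) • x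

lemma norm_nz {x : H} (hx : x ≠ 0) : ‖nz x‖ = 1 := by
  unfold nz
  rw [norm_smul, Complex.norm_real, norm_inv, norm_norm]
  exact inv_mul_cancel₀ (norm_ne_zero_iff.mpr hx)

lemma nz_smul {ζ : ℂ} (hζ : ‖ζ‖ = 1) (x : H) : nz (ζ • x) = ζ • nz x := by
  unfold nz
  rw [norm_smul, hζ, one_mul, smul_comm]

lemma nz_dist {x y : H} (hx : x ≠ 0) (hy : y ≠ 0) : ‖nz x - nz y‖ * ‖x‖ ≤ 2 * ‖x - y‖ := by
  have hx' : ‖x‖ ≠ 0 := norm_ne_zero_iff.mpr hx
  have hy' : ‖y‖ ≠ 0 := norm_ne_zero_iff.mpr hy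
  have h1 : ((‖x‖ : ℝ) : ℂ) • (nz x - nz y) = (x - y) + (((‖y‖ - ‖x‖ : ℝ) : ℂ) • nz y) := by
    have e1 : ((‖x‖ : ℝ) : ℂ) • nz x = x := by
      unfold nz
      rw [smul_smul, ← Complex.ofReal_mul, mul_inv_cancel₀ hx', Complex.ofReal_one, one_smul]
    have e2 : ((‖y‖ : ℝ) : ℂ) • nz y = y := by
      unfold nz
      rw [smul_smul, ← Complex.ofReal_mul, mul_inv_cancel₀ hy', Complex.ofReal_one, one_smul]
    rw [smul_sub, e1, Complex.ofReal_sub, sub_smul, e2]
    abel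
  have h2 : ‖nz x - nz y‖ * ‖x‖ = ‖((‖x‖ : ℝ) : ℂ) • (nz x - nz y)‖ := by
    rw [norm_smul, Complex.norm_real, norm_norm, mul_comm]
  rw [h2, h1]
  refine (norm_add_le _ _).trans ?_
  rw [norm_smul, norm_nz hy, Complex.norm_real, mul_one]
  have h3 : ‖‖y‖ - ‖x‖‖ ≤ ‖x - y‖ := by
    rw [Real.norm_eq_abs, norm_sub_rev]
    exact abs_norm_sub_norm_le y x
  linarith

/-- **No equivariant labelling of the sphere.** -/
theorem no_labels {e : ℕ → H} (he : Orthonormal ℂ e) (p : ℕ) [NeZero p] (hp : 2 ≤ p) {ζ : ℂ}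
    (hζ : ‖ζ‖ = 1) (hζp : ζ ^ p = 1) (lam : H → ℕ × ZMod p) {ε : ℝ} (hε : 0 < ε) (S : Finset ℕ)
    (h1 : ∀ u, ‖u‖ = 1 → lam (ζ • u) = ((lam u).1, (lam u).2 + 1))
    (h2 : ∀ u, ‖u‖ = 1 → (lam u).1 ∈ S)
    (h3 : ∀ u v, ‖u‖ = 1 → ‖v‖ = 1 → ‖u - v‖ < ε → (lam u).1 = (lam v).1 →
      (lam u).2 = (lam v).2) : False := by
  set N := S.card with hN
  have hT : ∀ x, (mulT ζ : H → H)^[p] x = x := by
    intro x; rw [mulT_iterate, hζp, one_smul]
  obtain ⟨r, hr⟩ : ∃ r : ℕ, ((N : ℝ) / (N + 1)) ^ r < ε / (4 * (N + 1)) := by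
    apply exists_pow_lt_of_lt_one (by positivity)
    rw [div_lt_one (by positivity)]
    linarith
  set lamE : H → ℕ × ZMod p := fun x => lam (nz x) with hlamE
  set ψ : List H → Fn p := psi p lamE with hψ
  have hsmall : ∀ n ≤ N, ∀ l, IsK (mulT ζ) e n l → Small 2 l := by
    intro n _ l hl x hx y hy
    have hk := (K_orth he hζ n l hl).2.1
    calc dist x y ≤ ‖x‖ + ‖y‖ := dist_le_norm_add_norm x y
      _ = 2 := by rw [hk x hx, hk y hy]; norm_num
  -- the points of a small simplex in the hull of a list of vertices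
  have hmain : ∀ n ≤ N, ∀ l, IsK (mulT ζ) e n l → ∀ φ : List H → Fn p,
      (∀ m : List H, m.length = n + 1 → (∀ x ∈ m, x ≠ 0) →
        (∀ x ∈ m, ∀ y ∈ m, ‖nz x - nz y‖ < ε) → φ m = 0) → SdI r φ l = 0 := by
    intro n hn l hl φ hφ
    by_contra hcon
    obtain ⟨m, e1, e2, e3, e4⟩ := exists_of_SdI_ne_zero (N := N) (D := 2) r
      (by rw [hl.length]; omega) (hsmall n hn l hl) hcon
    have hnorm : ∀ x ∈ m, 1 ≤ ((N : ℝ) + 1) * ‖x‖ := by
      intro x hx
      have := K_norm he hζ n l hl (e3 x hx)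
      have hnN : (n : ℝ) ≤ N := by exact_mod_cast hn
      have hx0 := norm_nonneg x
      nlinarith
    have hne : ∀ x ∈ m, x ≠ 0 := by
      rintro x hx rfl
      have := hnorm 0 hx
      rw [norm_zero, mul_zero] at this
      linarith
    apply e2
    apply hφ m (by rw [e1, hl.length]) hne
    intro x hx y hy
    have h5 := nz_dist (hne x hx) (hne y hy)
    have h6 := hnorm x hx
    have h7 : ‖x - y‖ < ε / (2 * (N + 1)) := by
      have := e4 x hx y hy
      rw [dist_eq_norm] at this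
      calc ‖x - y‖ ≤ 2 * ((N : ℝ) / (N + 1)) ^ r := this
        _ < 2 * (ε / (4 * (N + 1))) := by gcongr
        _ = ε / (2 * (N + 1)) := by field_simp; norm_num
    have h8 : ‖nz x - nz y‖ ≤ ((N : ℝ) + 1) * (2 * ‖x - y‖) := by
      have h9 := norm_nonneg (nz x - nz y)
      have hN0 : (0 : ℝ) ≤ N := Nat.cast_nonneg N
      calc ‖nz x - nz y‖ ≤ ‖nz x - nz y‖ * (((N : ℝ) + 1) * ‖x‖) := le_mul_of_one_le_right h9 h6
        _ = ((N : ℝ) + 1) * (‖nz x - nz y‖ * ‖x‖) := by ring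
        _ ≤ ((N : ℝ) + 1) * (2 * ‖x - y‖) := by gcongr
    calc ‖nz x - nz y‖ ≤ ((N : ℝ) + 1) * (2 * ‖x - y‖) := h8
      _ < ((N : ℝ) + 1) * (2 * (ε / (2 * (N + 1)))) := by gcongr
      _ = ε := by field_simp
  refine chain_contra (T := mulT ζ) (v := e) p hp hT N (SdI r ψ) ?_ ?_ ?_ ?_
  · intro x
    rw [SdI_single, hψ, psi_single, eps_dl]
  · intro n hn l hl
    rw [SdI_natural (mulT ζ : H → H) (bary_map_linear (mulT ζ)), SdI_map_hom]
    rw [← sub_eq_zero, ← SdI_sub']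
    apply hmain n hn l hl
    intro m _ hm1 _
    rw [sub_eq_zero]
    apply psi_shift
    intro x hx
    show lam (nz (ζ • x)) = _
    rw [nz_smul hζ]
    exact h1 _ (norm_nz (hm1 x hx))
  · intro n hn l hl
    rw [SdI_map_hom, ← sub_eq_zero, ← SdI_del, ← SdI_sub']
    apply hmain (n + 1) (by omega) l hl
    intro m hm hm1 hm2
    rw [sub_eq_zero]
    have hm' : m.length = n + 2 := hm
    rw [← hm']
    apply psi_bd p lamE m (by omega)
    intro x hx y hy hxy
    exact h3 _ _ (norm_nz (hm1 x hx)) (norm_nz (hm1 y hy)) (hm2 x hx y hy) hxy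
  · intro l hl
    apply hmain N le_rfl l hl
    intro m hm hm1 _
    apply psi_zero p lamE m S
    · intro x hx
      exact h2 _ (norm_nz (hm1 x hx))
    · rw [hm, hN]; omega

end

end Pool.Agent.Y450.FS
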